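import Mathlib
import Pool.Agent.H983R4.GL.T2

/-!
# The Weyl bound for Maass forms in the conductor-dropping range: a bound in measure suffices

Let `f` run through the Hecke-Maass cusp forms of level 1 and let `C = (1 + |t_f - T|) (1 + |t_f + T|)` be the
conductor of Q1.  We prove: for `0 < κ < μ` there are `δ > 0` and `X₀` such that, if `C ≥ X₀` and
`|L(1/2 + iT, f)| ≥ C^μ`, then `|L(1/2 + ix, f)| > C^κ` on a set of measure greater than `δ h` in
`[T - h, T + h]`, for every `0 < h ≤ 1`, whatever the scale `h`.  Consequently the bound of Q1 holds at all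
points `(f, T)` of a set `S`, for example in a conductor-dropping range, as soon as, for every `ε > 0`, the bound
`|L(1/2 + ix, f)| ≤ C^(1/6 + ε)` holds, for each `(f, T)` in `S`, for `x` in ONE window `[T - w, T + w]`,
`w = w(f, T)` in `(0, 1]` arbitrarily small, outside a set of measure `o(w)`.

The theorem is stated for any family of L-functions of degree 2, `C` being the analytic conductor
`N ∏ j, (1 + |mu j - iT|)` (`N = 1`, `mu = ± i t_f` for even forms; for odd forms `mu = -1 ± i t_f`, and `C` is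
the same up to a bounded factor); only classical facts are used: the functional equation, `Re μ_j < 1/2`, finite
order, and `L(s) = O(C^ε)` in `Re s ≥ 1 + ε`.
-/

set_option autoImplicit false

open MeasureTheory Real Set

namespace Pool.Agent.Results.MP_90c719_nt.WeylInMeasure

open Pool.Agent.H983R4.GL.T (Datum)

variable {ι : Type}

/-- The bound `f(s) = O(C^ε)` in `Re s ≥ 1 + ε`, uniform in the family, `C` the conductor at `Im s`. -/
def RightC (F : ι → Datum 2) : Prop := ∀ ε : ℝ, 0 < ε → ∃ B : ℝ,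
  ∀ (i : ι) (s : ℂ), 1 + ε ≤ s.re → ‖(F i).f s‖ ≤ B * (F i).C s.im ^ ε

open Pool.Agent.H983R4.GL H855R2.SF in
theorem fam {F : ι → Datum 2} (hF : ∀ i, (F i).Ok) (hR : RightC F) :
    Fam (fun i => (F i).f) (fun i t => (F i).C t) := by
  have H : AFam ((2 : ℕ) : ℝ) (fun i => (F i).f) (fun i t => (F i).C t) := by
    refine ⟨by positivity, fun i t => cond_one_le (hF i).N_pos (F i).mu t,
      fun i t u => cond_shift (F i).N (F i).mu t u, fun i => (hF i).entire, fun i => (hF i).order,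
      fun δ hδ => hR δ hδ, 16 ^ 2, by norm_num, fun i x t hx0 hx1 => ?_⟩
    obtain ⟨root, hroot, h⟩ := (hF i).fe
    exact refl_of_fe (hF i).N_pos (F i).mu (hF i).mu_re hroot h (t := t) hx0 hx1
  exact Fam.of_afam (p := 1) H one_pos (fun i t => cond_one_le (hF i).N_pos (F i).mu t)
    fun i t => by rw [Real.rpow_one]

theorem result (ι : Type) (F : ι → Datum 2) (hF : ∀ i, (F i).Ok) (hR : RightC F) :
    (∀ κ μ : ℝ, 0 < κ → κ < μ → ∃ δ X₀ : ℝ, 0 < δ ∧ ∀ (i : ι) (T : ℝ), X₀ ≤ (F i).C T →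
      (F i).C T ^ μ ≤ ‖(F i).f (1 / 2 + T * Complex.I)‖ → ∀ h : ℝ, 0 < h → h ≤ 1 →
        ENNReal.ofReal (δ * h) <
          volume {x : ℝ | |x - T| ≤ h ∧ (F i).C T ^ κ < ‖(F i).f (1 / 2 + x * Complex.I)‖}) ∧
    (∀ (S : Set (ι × ℝ)) (w : ι → ℝ → ℝ), (∀ i T, 0 < w i T ∧ w i T ≤ 1) →
      (∀ ε : ℝ, 0 < ε → ∀ η : ℝ, 0 < η → ∃ X₀ : ℝ, ∀ (i : ι) (T : ℝ), (i, T) ∈ S → X₀ ≤ (F i).C T →
        volume {x : ℝ | |x - T| ≤ w i T ∧
          (F i).C T ^ (1 / 6 + ε) < ‖(F i).f (1 / 2 + x * Complex.I)‖} ≤ ENNReal.ofReal (η * w i T)) →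
      ∀ ε : ℝ, 0 < ε → ∃ B : ℝ, ∀ (i : ι) (T : ℝ), (i, T) ∈ S →
        ‖(F i).f (1 / 2 + T * Complex.I)‖ ≤ B * (F i).C T ^ (1 / 6 + ε)) := by
  have H := fam hF hR
  refine ⟨fun κ μ h1 h2 => ?_, fun S w hw hs => ?_⟩
  · obtain ⟨δ, hδ, X₀, h⟩ := H.persist h1 h2
    exact ⟨δ, X₀, hδ, h⟩
  · exact H.points (κ₀ := 1 / 6) (by norm_num) S hw hs

end Pool.Agent.Results.MP_90c719_nt.WeylInMeasure
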